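import Mathlib

/-!
# MP_e77370_co: total size of non-empty cross-`q`-intersecting families

The conjectured bound `max {M₁, M₂}` fails for every `q ≥ 2`: if all `k_j = k ≥ q + 1` and
`2 k - q + 1 ≤ n < (q + 1) (k - q + 1)`, then it fails for all sufficiently large numbers `t` of
families (take all families equal to `{A : |A ∩ [q + 2]| ≥ q + 1}`).
-/

set_option autoImplicit false

open Finset

namespace Pool.Agent.Results.MP_e77370_co.ManyFamilies

/-- The parameters are admissible: `t = s + 1 ≥ 2` families, `q ≥ 1`, `k_1 ≥ k_2 ≥ ⋯ ≥ k_t ≥ q + 1`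
and `n ≥ k_1 + k_2 - q + 1`. (The sizes `k_1, …, k_t` are `k 0, …, k s`.) -/
def Admissible (n q s : ℕ) (k : Fin (s + 1) → ℕ) : Prop :=
  1 ≤ s ∧ 1 ≤ q ∧ Antitone k ∧ q + 1 ≤ k (Fin.last s) ∧ k 0 + k 1 + 1 ≤ n + q

/-- `M₁ = C(n,k_1) - ∑_{j<q} C(k_t,j) C(n-k_t,k_1-j) + ∑_{j=2}^t C(n-k_t,k_j-k_t)`. -/
def M₁ (n q s : ℕ) (k : Fin (s + 1) → ℕ) : ℤ :=
  (n.choose (k 0) : ℤ)
    - ∑ j ∈ range q, ((k (Fin.last s)).choose j * (n - k (Fin.last s)).choose (k 0 - j) : ℕ)
    + ∑ j : Fin s, ((n - k (Fin.last s)).choose (k j.succ - k (Fin.last s)) : ℕ)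

/-- `M₂ = ∑_{j=1}^t C(n-q,k_j-q)`. -/
def M₂ (n q s : ℕ) (k : Fin (s + 1) → ℕ) : ℤ :=
  ∑ j : Fin (s + 1), ((n - q).choose (k j - q) : ℕ)

/-- `F_1, …, F_t` are non-empty families of `k_j`-subsets of `[n]`, and for `i ≠ j` every member of
`F_i` shares at least `q` elements with every member of `F_j`. -/
def CrossIntersecting (n q s : ℕ) (k : Fin (s + 1) → ℕ)
    (F : Fin (s + 1) → Finset (Finset (Fin n))) : Prop :=
  (∀ j, (F j).Nonempty) ∧ (∀ j, ∀ A ∈ F j, #A = k j) ∧
    ∀ i j, i ≠ j → ∀ A ∈ F i, ∀ B ∈ F j, q ≤ #(A ∩ B)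

variable {n : ℕ}

/-- the number of `k`-sets with a given trace on `T` -/
lemma card_trace (T S : Finset (Fin n)) (hS : S ⊆ T) (k : ℕ) (hk : #S ≤ k) :
    #((powersetCard k univ).filter (fun A : Finset (Fin n) => A ∩ T = S)) =
      (n - #T).choose (k - #S) := by
  have h1 : (powersetCard k univ).filter (fun A : Finset (Fin n) => A ∩ T = S) =
      (powersetCard (k - #S) Tᶜ).image (fun B => S ∪ B) := by
    ext A
    rw [mem_filter, mem_powersetCard, mem_image]
    constructor
    · rintro ⟨⟨-, hA⟩, hAT⟩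
      refine ⟨A \ T, mem_powersetCard.2 ⟨?_, ?_⟩, ?_⟩
      · intro x hx
        exact mem_compl.2 (mem_sdiff.1 hx).2
      · have := card_sdiff_add_card_inter A T
        rw [hAT] at this
        omega
      · rw [← hAT, union_comm]
        exact sdiff_union_inter A T
    · rintro ⟨B, hB, rfl⟩
      rw [mem_powersetCard] at hB
      have hd : Disjoint S B := by
        rw [disjoint_left]
        intro x hx hx'
        exact (mem_compl.1 (hB.1 hx')) (hS hx)
      refine ⟨⟨subset_univ _, ?_⟩, ?_⟩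
      · rw [card_union_of_disjoint hd, hB.2]
        omega
      · ext x
        rw [mem_inter, mem_union]
        constructor
        · rintro ⟨h | h, hT⟩
          · exact h
          · exact absurd hT (mem_compl.1 (hB.1 h))
        · intro h
          exact ⟨Or.inl h, hS h⟩
  rw [h1, card_image_of_injOn, card_powersetCard, card_compl, Fintype.card_fin]
  intro B hB B' hB' h
  have hB1 := (mem_powersetCard.1 (mem_coe.1 hB)).1
  have hB2 := (mem_powersetCard.1 (mem_coe.1 hB')).1
  have key : ∀ C : Finset (Fin n), C ⊆ Tᶜ → (S ∪ C) \ T = C := by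
    intro C hC
    ext x
    rw [mem_sdiff, mem_union]
    constructor
    · rintro ⟨h1 | h1, h2⟩
      · exact absurd (hS h1) h2
      · exact h1
    · intro h1
      exact ⟨Or.inr h1, mem_compl.1 (hC h1)⟩
  have h' : S ∪ B = S ∪ B' := h
  rw [← key B hB1, ← key B' hB2, h']

/-- the family `{A : |A ∩ T| ≥ q + 1}` with `|T| = q + 2` -/
def Fam (T : Finset (Fin n)) (k q : ℕ) : Finset (Finset (Fin n)) :=
  (powersetCard k univ).filter (fun A => q + 1 ≤ #(A ∩ T))

lemma card_Fam (T : Finset (Fin n)) (k q : ℕ) (hT : #T = q + 2) (hk : q + 1 ≤ k) :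
    (q + 2) * (n - (q + 2)).choose (k - (q + 1)) +
      (if q + 2 ≤ k then (n - (q + 2)).choose (k - (q + 2)) else 0) ≤ #(Fam T k q) := by
  classical
  let P : Finset (Fin n) → Finset (Finset (Fin n)) :=
    fun S => (powersetCard k univ).filter (fun A : Finset (Fin n) => A ∩ T = S)
  have hsub : (powersetCard (q + 1) T).biUnion P ∪ P T ⊆ Fam T k q := by
    intro A hA
    rw [mem_union, mem_biUnion] at hA
    rcases hA with ⟨S, hS, hA⟩ | hA
    · rw [mem_filter] at hA
      refine mem_filter.2 ⟨hA.1, ?_⟩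
      rw [hA.2, (mem_powersetCard.1 hS).2]
    · rw [mem_filter] at hA
      refine mem_filter.2 ⟨hA.1, ?_⟩
      rw [hA.2, hT]
      omega
  have hdisj : Disjoint ((powersetCard (q + 1) T).biUnion P) (P T) := by
    rw [disjoint_left]
    intro A hA hA'
    obtain ⟨S, hS, hA1⟩ := mem_biUnion.1 hA
    have h1 := (mem_filter.1 hA1).2
    have h2 := (mem_filter.1 hA').2
    have h3 := (mem_powersetCard.1 hS).2
    rw [← h1, h2] at h3
    omega
  have h1 : #((powersetCard (q + 1) T).biUnion P) =
      (q + 2) * (n - (q + 2)).choose (k - (q + 1)) := by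
    rw [card_biUnion]
    · have h2 : ∀ S ∈ powersetCard (q + 1) T, #(P S) = (n - (q + 2)).choose (k - (q + 1)) := by
        intro S hS
        rw [mem_powersetCard] at hS
        have := card_trace T S hS.1 k (by omega)
        rw [hT, hS.2] at this
        exact this
      rw [sum_congr rfl h2, sum_const, card_powersetCard, hT, smul_eq_mul]
      congr 1
      rw [Nat.choose_symm_of_eq_add (by ring : q + 2 = (q + 1) + 1), Nat.choose_one_right]
    · intro S _ S' _ hne
      rw [Function.onFun, disjoint_left]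
      intro A hA hA'
      exact hne ((mem_filter.1 hA).2.symm.trans (mem_filter.1 hA').2)
  have h2 : (if q + 2 ≤ k then (n - (q + 2)).choose (k - (q + 2)) else 0) ≤ #(P T) := by
    split_ifs with h
    · have := card_trace T T (Subset.refl _) k (by omega)
      rw [hT] at this
      exact this.ge
    · exact Nat.zero_le _
  have h3 := card_le_card hsub
  rw [card_union_of_disjoint hdisj, h1] at h3
  omega

/-- the comparison with the star, for `n < (q + 1) (k - q + 1)` -/
lemma star_lt (n q k : ℕ) (hk : q + 1 ≤ k) (hn1 : 2 * k + 1 ≤ n + q)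
    (hn2 : n < (q + 1) * (k - q + 1)) :
    (n - q).choose (k - q) < (q + 2) * (n - (q + 2)).choose (k - (q + 1)) +
      (if q + 2 ≤ k then (n - (q + 2)).choose (k - (q + 2)) else 0) := by
  obtain ⟨a, rfl⟩ : ∃ a, k = q + 1 + a := ⟨k - (q + 1), by omega⟩
  obtain ⟨N, hN⟩ : ∃ N, n = N + (q + 2) := ⟨n - (q + 2), by omega⟩
  subst hN
  have e1 : N + (q + 2) - q = N + 2 := by omega
  have e2 : q + 1 + a - q = a + 1 := by omega
  have e3 : N + (q + 2) - (q + 2) = N := by omega
  have e4 : q + 1 + a - (q + 1) = a := by omega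
  rw [e1, e2, e3, e4]
  rw [e2] at hn2
  -- `C(N+2,a+1) = C(N,a+1) + 2 C(N,a) + C(N,a-1)`
  have h1 : (N + 2).choose (a + 1) = N.choose (a + 1) + 2 * N.choose a +
      (if q + 2 ≤ q + 1 + a then N.choose (q + 1 + a - (q + 2)) else 0) := by
    have c1 : (N + 2).choose (a + 1) = (N + 1).choose a + (N + 1).choose (a + 1) :=
      Nat.choose_succ_succ' (N + 1) a
    have c2 : (N + 1).choose (a + 1) = N.choose a + N.choose (a + 1) :=
      Nat.choose_succ_succ' N a
    rw [c1, c2]
    rcases Nat.eq_zero_or_pos a with ha | ha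
    · rw [if_neg (by omega), ha]
      simp only [Nat.choose_zero_right]
      omega
    · obtain ⟨b, hb⟩ : ∃ b, a = b + 1 := ⟨a - 1, by omega⟩
      have e5 : q + 1 + a - (q + 2) = b := by omega
      have c3 : (N + 1).choose a = N.choose b + N.choose a := by
        rw [hb]
        exact Nat.choose_succ_succ' N b
      rw [if_pos (by omega), e5, c3]
      omega
  rw [h1]
  -- `C(N,a+1) < q C(N,a)`
  have h2 : N.choose (a + 1) < q * N.choose a := by
    have h3 := Nat.choose_succ_right_eq N a
    have haN : a ≤ N := by omega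
    have hpos : 0 < N.choose a := Nat.choose_pos haN
    have h4 : N - a < q * (a + 1) := by
      have : (q + 1) * (a + 1 + 1) = q * (a + 1) + q + a + 2 := by ring
      omega
    have h5 : N.choose a * (N - a) < N.choose a * (q * (a + 1)) :=
      Nat.mul_lt_mul_of_pos_left h4 hpos
    have h6 : N.choose (a + 1) * (a + 1) < q * N.choose a * (a + 1) := by
      rw [h3]
      calc N.choose a * (N - a) < N.choose a * (q * (a + 1)) := h5
        _ = q * N.choose a * (a + 1) := by ring
    exact Nat.lt_of_mul_lt_mul_right h6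
  have h7 : (q + 2) * N.choose a = q * N.choose a + 2 * N.choose a := by ring
  omega

/-- **The bound fails for every `q ≥ 2`.** Let `q ≥ 2`, `k ≥ q + 1` and
`2 k - q + 1 ≤ n < (q + 1) (k - q + 1)` (for `k = q + 1` this is `q + 3 ≤ n ≤ 2 q + 1`), and let all
`k_j = k`. Then for every number `t = s + 1 > C(n,k)` of families the parameters are admissible and
there are non-empty cross-`q`-intersecting families whose total size exceeds `max {M₁, M₂}`. -/
theorem result (q k n : ℕ) (hq : 2 ≤ q) (hk : q + 1 ≤ k) (hn1 : 2 * k + 1 ≤ n + q)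
    (hn2 : n < (q + 1) * (k - q + 1)) (s : ℕ) (hs : n.choose k ≤ s) :
    Admissible n q s (fun _ => k) ∧
    ∃ F : Fin (s + 1) → Finset (Finset (Fin n)), CrossIntersecting n q s (fun _ => k) F ∧
      max (M₁ n q s (fun _ => k)) (M₂ n q s (fun _ => k)) < ∑ j, (#(F j) : ℤ) := by
  have hkn : k ≤ n := by omega
  have hpos : 0 < n.choose k := Nat.choose_pos hkn
  refine ⟨⟨by omega, by omega, antitone_const, hk, ?_⟩, ?_⟩
  · show k + k + 1 ≤ n + q
    omega
  obtain ⟨T, -, hT⟩ := exists_subset_card_eq (s := (univ : Finset (Fin n))) (n := q + 2) (by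
    rw [card_univ, Fintype.card_fin]
    omega)
  have hcard := card_Fam T k q hT hk
  have hlt := star_lt n q k hk hn1 hn2
  have hstar : 0 < (n - q).choose (k - q) := Nat.choose_pos (by omega)
  have hbig : (n - q).choose (k - q) < #(Fam T k q) := hlt.trans_le hcard
  have hFpos : 0 < #(Fam T k q) := by omega
  refine ⟨fun _ => Fam T k q, ⟨fun _ => card_pos.1 hFpos, ?_, ?_⟩, ?_⟩
  · intro _ A hA
    exact (mem_powersetCard.1 (mem_filter.1 hA).1).2
  · intro _ _ _ A hA B hB
    have h1 := (mem_filter.1 hA).2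
    have h2 := (mem_filter.1 hB).2
    have h3 := card_union_add_card_inter (A ∩ T) (B ∩ T)
    have h4 : #(A ∩ T ∪ B ∩ T) ≤ #T :=
      card_le_card (union_subset inter_subset_right inter_subset_right)
    have h5 : #(A ∩ T ∩ (B ∩ T)) ≤ #(A ∩ B) := by
      apply card_le_card
      intro x hx
      rw [mem_inter, mem_inter, mem_inter] at hx
      exact mem_inter.2 ⟨hx.1.1, hx.2.1⟩
    omega
  · rw [sum_const, card_univ, Fintype.card_fin, nsmul_eq_mul]
    have hF2 : (2 : ℤ) ≤ #(Fam T k q) := by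
      have : 2 ≤ #(Fam T k q) := by omega
      exact_mod_cast this
    apply max_lt
    · -- `M₁ ≤ C(n,k) + t - 1`
      have h1 : M₁ n q s (fun _ => k) ≤ n.choose k + s := by
        have h2 : (0 : ℤ) ≤ ((∑ j ∈ range q, k.choose j * (n - k).choose (k - j) : ℕ) : ℤ) :=
          Int.natCast_nonneg _
        have h3 : ((∑ _j : Fin s, (n - k).choose (k - k) : ℕ) : ℤ) = s := by
          simp
        have h4 : M₁ n q s (fun _ => k) = (n.choose k : ℤ)
            - ((∑ j ∈ range q, k.choose j * (n - k).choose (k - j) : ℕ) : ℤ)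
            + ((∑ _j : Fin s, (n - k).choose (k - k) : ℕ) : ℤ) := rfl
        rw [h4, h3]
        linarith
      have h4 : (n.choose k : ℤ) ≤ s := by exact_mod_cast hs
      push_cast
      nlinarith
    · -- `M₂ = t C(n-q,k-q)`
      have h1 : M₂ n q s (fun _ => k) = ((s + 1 : ℕ) : ℤ) * (n - q).choose (k - q) := by
        unfold M₂
        rw [sum_const, card_univ, Fintype.card_fin, nsmul_eq_mul]
      rw [h1]
      have h2 : (((n - q).choose (k - q) : ℕ) : ℤ) < #(Fam T k q) := by exact_mod_cast hbig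
      have h3 : (0 : ℤ) < ((s + 1 : ℕ) : ℤ) := by positivity
      exact mul_lt_mul_of_pos_left h2 h3

end Pool.Agent.Results.MP_e77370_co.ManyFamilies
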